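import Pool.Agent.W16.CM.Stm

set_option autoImplicit false

/-!
Project CM, part DAV: zero-sum subsets modulo any integer, from the prime case by composition.
-/

open Finset

namespace Pool.Agent.W261.CM.DAV

open Pool.Agent.W16.CM

/-- Greedy extraction of disjoint blocks whose sums are divisible by `p`. -/
theorem extract (h : St_DAVP) (p : ℕ) (Q : Finset ℕ) (v : ℕ → ℕ → ℤ) (hp : p.Prime)
    (hQ : Q.Nonempty) : ∀ (N : ℕ) (s : Finset ℕ), Q.card * p * N ≤ s.card →
      ∃ f : ℕ → Finset ℕ, (∀ j ∈ range N, f j ⊆ s ∧ (f j).Nonempty ∧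
        ∀ r ∈ Q, (p : ℤ) ∣ ∑ i ∈ f j, v i r) ∧
        (∀ j ∈ range N, ∀ j' ∈ range N, j ≠ j' → Disjoint (f j) (f j')) := by
  intro N
  induction N with
  | zero =>
    intro s _
    exact ⟨fun _ => ∅, by simp, by simp⟩
  | succ N ih =>
    intro s hs
    have h1 : Q.card * p ≤ s.card := by
      have : Q.card * p * 1 ≤ Q.card * p * (N + 1) := Nat.mul_le_mul_left _ (by omega)
      omega
    obtain ⟨s', hs's, hs'c⟩ := Finset.exists_subset_card_eq h1
    have hp1 : 1 ≤ p := hp.one_lt.le
    have hQc : 0 < Q.card := hQ.card_pos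
    have h2 : Q.card * (p - 1) < s'.card := by
      rw [hs'c]
      exact Nat.mul_lt_mul_of_pos_left (by omega) hQc
    obtain ⟨u, hus, hun, hud⟩ := h p Q s' v hp h2
    have h3 : Q.card * p * N ≤ (s \ s').card := by
      rw [Finset.card_sdiff_of_subset hs's, hs'c]
      have : Q.card * p * (N + 1) = Q.card * p * N + Q.card * p := by ring
      omega
    obtain ⟨f, hf1, hf2⟩ := ih (s \ s') h3
    refine ⟨fun j => if j = N then u else f j, ?_, ?_⟩
    · intro j hj
      by_cases hjN : j = N
      · simp only [hjN, if_true]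
        exact ⟨hus.trans hs's, hun, hud⟩
      · simp only [hjN, if_false]
        have hj' : j ∈ range N := by
          rw [mem_range] at hj ⊢
          omega
        obtain ⟨a, b, c⟩ := hf1 j hj'
        exact ⟨a.trans Finset.sdiff_subset, b, c⟩
    · have key : ∀ j ∈ range N, Disjoint u (f j) := by
        intro j hj
        obtain ⟨a, _, _⟩ := hf1 j hj
        exact Finset.disjoint_of_subset_left hus
          (Finset.disjoint_of_subset_right a Finset.disjoint_sdiff)
      intro j hj j' hj' hne
      rw [mem_range] at hj hj'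
      by_cases hjN : j = N
      · have hj'N : j' ≠ N := fun hh => hne (hjN.trans hh.symm)
        simp only [hjN, if_true, hj'N, if_false]
        exact key j' (mem_range.2 (by omega))
      · by_cases hj'N : j' = N
        · simp only [hjN, if_false, hj'N, if_true]
          exact (key j (mem_range.2 (by omega))).symm
        · simp only [hjN, if_false, hj'N]
          exact hf2 j (mem_range.2 (by omega)) j' (mem_range.2 (by omega)) hne

theorem dav (h : St_DAVP) : St_DAV := by
  intro M
  induction M using induction_on_primes with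
  | zero =>
    intro Q s v h1
    omega
  | one =>
    intro Q s v _ _ hs
    have hs1 : 1 ≤ s.card := by simpa using hs
    have hne : s.Nonempty := Finset.card_pos.1 hs1
    obtain ⟨i, hi⟩ := hne
    refine ⟨{i}, by simpa using hi, by simp, ?_⟩
    intro r _
    simp
  | prime_mul p a hp ih =>
    intro Q s v h1 hQ hs
    have ha : a ≠ 0 := by
      rintro rfl
      simp at h1
    have hlen : (p * a).primeFactorsList.length = a.primeFactorsList.length + 1 := by
      rw [(Nat.perm_primeFactorsList_mul hp.ne_zero ha).length_eq, List.length_append,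
        Nat.primeFactorsList_prime hp]
      simp [Nat.add_comm]
    have hN : Q.card * p * (Q.card ^ a.primeFactorsList.length * a) ≤ s.card := by
      rw [hlen] at hs
      calc Q.card * p * (Q.card ^ a.primeFactorsList.length * a)
          = Q.card ^ (a.primeFactorsList.length + 1) * (p * a) := by ring
        _ ≤ s.card := hs
    obtain ⟨f, hf1, hf2⟩ := extract h p Q v hp hQ _ s hN
    obtain ⟨J, hJ, hJn, hJd⟩ := ih Q (range (Q.card ^ a.primeFactorsList.length * a))
      (fun j r => (∑ i ∈ f j, v i r) / p) (Nat.one_le_iff_ne_zero.2 ha) hQ (by simp)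
    refine ⟨J.biUnion f, ?_, ?_, ?_⟩
    · intro i hi
      obtain ⟨j, hj, hij⟩ := Finset.mem_biUnion.1 hi
      exact (hf1 j (hJ hj)).1 hij
    · obtain ⟨j, hj⟩ := hJn
      obtain ⟨i, hi⟩ := (hf1 j (hJ hj)).2.1
      exact ⟨i, Finset.mem_biUnion.2 ⟨j, hj, hi⟩⟩
    · intro r hr
      have hsum : ∑ i ∈ J.biUnion f, v i r = (p : ℤ) * ∑ j ∈ J, (∑ i ∈ f j, v i r) / p := by
        rw [Finset.sum_biUnion, Finset.mul_sum]
        · apply Finset.sum_congr rfl
          intro j hj
          exact (Int.mul_ediv_cancel' ((hf1 j (hJ hj)).2.2 r hr)).symm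
        · intro j hj j' hj' hne
          exact hf2 j (hJ hj) j' (hJ hj') hne
      rw [hsum]
      push_cast
      exact mul_dvd_mul_left _ (hJd r hr)

end Pool.Agent.W261.CM.DAV
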